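import Pool.Agent.LibNT29.G9
import Pool.Agent.LibBT65.Model2

set_option autoImplicit false

/-!
MP_8143af_co, partial answer to Q1: fixed members. A linear similarity of the quadric preserving a
2-system of `Q^+(9,q)`, `q` odd, with the BLT property, and not scalar, fixes at most two members, and
none if its square is scalar.
-/

namespace Pool.Agent.Results.MP_8143af_co.FixedMembers

open Pool.Agent.LibBT65

private theorem toSystem {F : Type*} [Field F] [Fintype F] {M : Finset (Submodule F (Vec F))}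
    (hM : BLT2System M) : BLTSystem (F := F) M :=
  ⟨hM.card, hM.sing, hM.opp, hM.blt⟩

private theorem toSymmetry {F : Type*} [Field F] {M : Finset (Submodule F (Vec F))}
    {g : Equiv.Perm (Vec F)} (hg : Sym M g) : Symmetry (F := F) M g := by
  obtain ⟨⟨hadd, σ, c, h⟩, hpres⟩ := hg
  exact ⟨hadd, ⟨σ, fun a v => (h a v).1, c, fun v => (h 1 v).2⟩, hpres⟩

/-- `g` is scalar. -/
def Scalar {F : Type*} [Field F] (g : Equiv.Perm (Vec F)) : Prop := ∃ c : F, ∀ v, g v = c • v

theorem result {F : Type*} [Field F] [Fintype F] (hodd : Odd (Fintype.card F))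
    (M : Finset (Submodule F (Vec F))) (hM : BLT2System M) (g : Equiv.Perm (Vec F))
    (hg : Sym M g) (hlin : ∀ (a : F) (v : Vec F), g (a • v) = a • g v) (hns : ¬ Scalar g) :
    {π | π ∈ M ∧ Maps g π π}.ncard ≤ 2 ∧ (Scalar (g * g) → ∀ π ∈ M, ¬ Maps g π π) := by
  obtain ⟨p, hchar⟩ := CharP.exists F
  obtain ⟨n, hp, hq⟩ := FiniteField.card F p
  have hp2 : p ≠ 2 := by
    rintro rfl
    rw [hq, Nat.odd_pow_iff n.ne_zero] at hodd
    exact absurd hodd (by decide)
  have two := Pool.Agent.LibNT29.two_ne (F := F) p hp2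
  have hM' := toSystem hM
  have hg' := toSymmetry hg
  constructor
  · by_contra h
    have h1 : 2 < {π | π ∈ M ∧ Maps g π π}.ncard := by omega
    have hfin : {π | π ∈ M ∧ Maps g π π}.Finite :=
      M.finite_toSet.subset (fun π hπ => hπ.1)
    obtain ⟨a, ha, b, hb, c, hc, hab, hac, hbc⟩ := (Set.two_lt_ncard hfin).1 h1
    exact hns (Pool.Agent.LibNT29.fixed_three two hM' hg' hlin ha.1 hb.1 hc.1 hab hac hbc
      ha.2 hb.2 hc.2)
  · intro hsq
    rcases Pool.Agent.LibNT29.square_scalar two hM' hg' hlin hsq with h | h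
    · exact absurd h hns
    · exact h

end Pool.Agent.Results.MP_8143af_co.FixedMembers
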