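import Pool.Agent.LibNT29.G9
import Pool.Agent.LibBT65.Model2

set_option autoImplicit false

/-!
MP_8143af_co, partial answer to Q1: the order of a linear group preserving a 2-system of `Q^+(9,q)`,
`q` odd, with the BLT property. The index `n` of the scalars in `G` is not divisible by 4, and it is a
divisor of `q^4 + 1`, at most `4 (q^4 + 1) / (q + 3)`, or a divisor of `p^a (q^2 - 1)` where
`p^(2a) ≤ q^7`, and `p^a ∣ q^3` unless `q` is a power of 3 greater than 3.
-/

namespace Pool.Agent.Results.MP_8143af_co.LinearGroups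

open Pool.Agent.LibBT65

private theorem toSystem {F : Type*} [Field F] [Fintype F] {M : Finset (Submodule F (Vec F))}
    (hM : BLT2System M) : BLTSystem (F := F) M :=
  ⟨hM.card, hM.sing, hM.opp, hM.blt⟩

private theorem toSymmetry {F : Type*} [Field F] {M : Finset (Submodule F (Vec F))}
    {g : Equiv.Perm (Vec F)} (hg : Sym M g) : Symmetry (F := F) M g := by
  obtain ⟨⟨hadd, σ, c, h⟩, hpres⟩ := hg
  exact ⟨hadd, ⟨σ, fun a v => (h a v).1, c, fun v => (h 1 v).2⟩, hpres⟩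

/-- `g` is scalar. -/
def Scalar {F : Type*} [Field F] (g : Equiv.Perm (Vec F)) : Prop := ∃ c : F, ∀ v, g v = c • v

theorem result {F : Type*} [Field F] [Fintype F] (p : ℕ) [CharP F p] (hp2 : p ≠ 2)
    (M : Finset (Submodule F (Vec F))) (hM : BLT2System M)
    (G : Subgroup (Equiv.Perm (Vec F))) (hG : ∀ g ∈ G, Sym M g) (hlin : Linear G)
    (n : ℕ) (hn : n * Nat.card {g // g ∈ G ∧ Scalar g} = Nat.card G) :
    ¬ 4 ∣ n ∧
      ((n ∣ Fintype.card F ^ 4 + 1 ∧ (Fintype.card F + 3) * n ≤ 4 * (Fintype.card F ^ 4 + 1)) ∨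
        ∃ a : ℕ, n ∣ p ^ a * (Fintype.card F ^ 2 - 1) ∧ (p ^ a) ^ 2 ≤ Fintype.card F ^ 7 ∧
          (p ≠ 3 ∨ Fintype.card F = 3 → p ^ a ∣ Fintype.card F ^ 3)) :=
  Pool.Agent.LibNT29.order_lin p hp2 (toSystem hM) G (fun g hg => toSymmetry (hG g hg)) hlin hn

end Pool.Agent.Results.MP_8143af_co.LinearGroups
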