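import Pool.Agent.LibBT65.D5
import Pool.Agent.LibBT65.Q9
import Pool.Agent.LibBT65.Model2

set_option autoImplicit false

/-!
MP_8143af_co, partial answer to Q1: symmetries of 2-systems of `Q^+(9,q)` with the BLT property.

For every odd `q`: in no group of collineations of the quadric preserving such a system `M` is the
stabiliser of a member `U` transitive on the `q^4` other members.
-/

namespace Pool.Agent.Results.MP_8143af_co.NoTransitiveStabiliser

open Pool.Agent.LibBT65

private theorem toSystem {F : Type*} [Field F] [Fintype F] {M : Finset (Submodule F (Vec F))}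
    (hM : BLT2System M) : BLTSystem (F := F) M :=
  ⟨hM.card, hM.sing, hM.opp, hM.blt⟩

private theorem toSymmetry {F : Type*} [Field F] {M : Finset (Submodule F (Vec F))}
    {g : Equiv.Perm (Vec F)} (hg : Sym M g) : Symmetry (F := F) M g := by
  obtain ⟨⟨hadd, σ, c, h⟩, hpres⟩ := hg
  exact ⟨hadd, ⟨σ, fun a v => (h a v).1, c, fun v => (h 1 v).2⟩, hpres⟩

theorem result {F : Type*} [Field F] [Fintype F] (hodd : Odd (Fintype.card F))
    (M : Finset (Submodule F (Vec F))) (hM : BLT2System M)
    (G : Subgroup (Equiv.Perm (Vec F))) (hG : ∀ g ∈ G, Sym M g) :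
    ∀ U ∈ M, ¬ TransOff M G U := by
  intro U hU htr
  have hM' := toSystem hM
  have hG' : ∀ g ∈ G, Symmetry (F := F) M g := fun g hg => toSymmetry (hG g hg)
  obtain ⟨p, hchar⟩ := CharP.exists F
  obtain ⟨n, hp, hq⟩ := FiniteField.card F p
  have hfact : Fact p.Prime := ⟨hp⟩
  by_cases h5 : 5 ≤ p
  · exact main3 p h5 hM' G hG' U hU htr
  · have h3 : p = 3 := by
      have h2 := hp.two_le
      have h4 : p ≠ 4 := by
        rintro rfl
        exact absurd hp (by norm_num)
      have h2' : p ≠ 2 := by
        rintro rfl
        rw [hq, Nat.odd_pow_iff n.ne_zero] at hodd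
        exact absurd hodd (by decide)
      omega
    subst h3
    by_cases hq3 : Fintype.card F = 3
    · exact main3_three hq3 hM' G hG' U hU htr
    · have h9 : 9 ≤ Fintype.card F := by
        rw [hq] at hq3 ⊢
        have hn : (n : ℕ) ≠ 1 := by
          intro h
          rw [h] at hq3
          exact hq3 (by norm_num)
        have hn0 := n.pos
        calc 9 = 3 ^ 2 := by norm_num
          _ ≤ 3 ^ (n : ℕ) := Nat.pow_le_pow_right (by norm_num) (by omega)
      exact main3_3 h9 hM' G hG' U hU htr

end Pool.Agent.Results.MP_8143af_co.NoTransitiveStabiliser
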