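import Pool.Agent.LibNT29.G9
import Pool.Agent.LibBT65.Model2

set_option autoImplicit false

/-!
MP_8143af_co, partial answer to Q1: for every odd `q`, no group of collineations of the quadric
preserving a 2-system of `Q^+(9,q)` with the BLT property is transitive on the members.
-/

namespace Pool.Agent.Results.MP_8143af_co.NotTransitive

open Pool.Agent.LibBT65

private theorem toSystem {F : Type*} [Field F] [Fintype F] {M : Finset (Submodule F (Vec F))}
    (hM : BLT2System M) : BLTSystem (F := F) M :=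
  ⟨hM.card, hM.sing, hM.opp, hM.blt⟩

private theorem toSymmetry {F : Type*} [Field F] {M : Finset (Submodule F (Vec F))}
    {g : Equiv.Perm (Vec F)} (hg : Sym M g) : Symmetry (F := F) M g := by
  obtain ⟨⟨hadd, σ, c, h⟩, hpres⟩ := hg
  exact ⟨hadd, ⟨σ, fun a v => (h a v).1, c, fun v => (h 1 v).2⟩, hpres⟩

theorem result {F : Type*} [Field F] [Fintype F] (hodd : Odd (Fintype.card F))
    (M : Finset (Submodule F (Vec F))) (hM : BLT2System M)
    (G : Subgroup (Equiv.Perm (Vec F))) (hG : ∀ g ∈ G, Sym M g) :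
    ¬ ∀ π ∈ M, ∀ π' ∈ M, ∃ g ∈ G, Maps g π π' := by
  intro htr
  obtain ⟨p, hchar⟩ := CharP.exists F
  obtain ⟨n, hp, hq⟩ := FiniteField.card F p
  have hp2 : p ≠ 2 := by
    rintro rfl
    rw [hq, Nat.odd_pow_iff n.ne_zero] at hodd
    exact absurd hodd (by decide)
  exact Pool.Agent.LibNT29.no_transitive (Pool.Agent.LibNT29.two_ne p hp2) (toSystem hM) G
    (fun g hg => toSymmetry (hG g hg)) htr

end Pool.Agent.Results.MP_8143af_co.NotTransitive
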